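import Pool.Agent.H84.ND.Targets2

/-!
# MP_70ba79_ag: row NEV of `ndc_modules`: values at a curve in the coordinates at a node
-/

set_option autoImplicit false

namespace Pool.Agent.H1.ND

open MvPolynomial SC Pool.Agent.H27.LV Pool.Agent.H84.SM Pool.Agent.H84.ND

theorem nev_dt {L : Type} [CommRing L] (x a b : Fin 3 → L) (j : Fin 3) (ha : a j = 0)
    (hb : b j = 0) : dt x a b = x j * (a (j + 1) * b (j + 2) - a (j + 2) * b (j + 1)) := by
  unfold dt dp cr
  rw [Fin.sum_univ_three]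
  fin_cases j
  · have h1 : a 0 = 0 := ha
    have h2 : b 0 = 0 := hb
    show x 0 * (a 1 * b 2 - a 2 * b 1) + x 1 * (a 2 * b 0 - a 0 * b 2) +
      x 2 * (a 0 * b 1 - a 1 * b 0) = x 0 * (a 1 * b 2 - a 2 * b 1)
    rw [h1, h2]
    ring
  · have h1 : a 1 = 0 := ha
    have h2 : b 1 = 0 := hb
    show x 0 * (a 1 * b 2 - a 2 * b 1) + x 1 * (a 2 * b 0 - a 0 * b 2) +
      x 2 * (a 0 * b 1 - a 1 * b 0) = x 1 * (a 2 * b 0 - a 0 * b 2)
    rw [h1, h2]
    ring
  · have h1 : a 2 = 0 := ha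
    have h2 : b 2 = 0 := hb
    show x 0 * (a 1 * b 2 - a 2 * b 1) + x 1 * (a 2 * b 0 - a 0 * b 2) +
      x 2 * (a 0 * b 1 - a 1 * b 0) = x 2 * (a 0 * b 1 - a 1 * b 0)
    rw [h1, h2]
    ring

theorem nev_cases (j i : Fin 3) : i = j ∨ i = j + 1 ∨ i = j + 2 := by
  fin_cases j <;> fin_cases i <;> simp

theorem pf_NEV : T_NEV := by
  intro k K _ _ _ _ G d j h r1 r2 hG θ x lam g hxj h1 h2 N
  obtain ⟨Φ, hΦ⟩ : ∃ Φ : A2 k →ₐ[k] K,
      Φ = aeval (Sum.elim x ![lam, g, g * θ lam - lam * θ g]) := ⟨_, rfl⟩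
  have hΦl : ∀ i, Φ (X (Sum.inl i)) = x i := fun i => by rw [hΦ, aeval_X]; rfl
  have hΦ0 : Φ (X (Sum.inr 0)) = lam := by rw [hΦ, aeval_X]; rfl
  have hΦ1 : Φ (X (Sum.inr 1)) = g := by rw [hΦ, aeval_X]; rfl
  have hΦ2 : Φ (X (Sum.inr 2)) = g * θ lam - lam * θ g := by rw [hΦ, aeval_X]; rfl
  have hΦa : ∀ p : MvPolynomial (Fin 3) k, Φ (aeval xa p) = aeval x p := by
    intro p
    have e : Φ.comp (aeval xa) = aeval x := by
      refine MvPolynomial.algHom_ext fun i => ?_
      rw [AlgHom.comp_apply, aeval_X, aeval_X]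
      exact hΦl i
    rw [← e]
    rfl
  have hθj : θ (x j) = 0 := by rw [hxj, Derivation.map_one_eq_zero]
  have hj1 : j + 1 ≠ j := by fin_cases j <;> decide
  have hj2 : j + 2 ≠ j := by fin_cases j <;> decide
  have hj3 : j + 2 ≠ j + 1 := by fin_cases j <;> decide
  have yj : yn G j r1 r2 j = 0 := if_pos rfl
  have y1 : yn G j r1 r2 (j + 1) = X (Sum.inr 0) * aeval xa r1 +
      X (Sum.inr 1) * aeval xa (pderiv (j + 2) G) := by
    unfold yn
    rw [if_neg hj1, if_pos rfl]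
  have y2 : yn G j r1 r2 (j + 2) = X (Sum.inr 0) * aeval xa r2 -
      X (Sum.inr 1) * aeval xa (pderiv (j + 1) G) := by
    unfold yn
    rw [if_neg hj2, if_neg hj3]
  have hΦy : ∀ i, Φ (yn G j r1 r2 i) = θ (x i) := by
    intro i
    rcases nev_cases j i with rfl | rfl | rfl
    · rw [yj, map_zero, hθj]
    · rw [y1, map_add, map_mul, map_mul, hΦ0, hΦ1, hΦa, hΦa, h1]
    · rw [y2, map_sub, map_mul, map_mul, hΦ0, hΦ1, hΦa, hΦa, h2]
  have dl : ∀ i, dn G j r1 r2 (X (Sum.inl i)) = yn G j r1 r2 i := fun i => by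
    unfold dn
    rw [mkDerivation_X]
    rfl
  have dr : ∀ i, dn G j r1 r2 (X (Sum.inr i)) = 0 := fun i => by
    unfold dn
    rw [mkDerivation_X]
    rfl
  have hΦd : ∀ p : MvPolynomial (Fin 3) k, Φ (dn G j r1 r2 (aeval xa p)) = θ (aeval x p) := by
    intro p
    induction p using MvPolynomial.induction_on with
    | C a =>
      rw [algHom_C, algHom_C, Derivation.map_algebraMap, Derivation.map_algebraMap, map_zero]
    | add p q hp hq => rw [map_add, map_add, map_add, hp, hq, map_add, map_add]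
    | mul_X p i hp =>
      have a1 : (aeval xa (p * X i) : A2 k) = aeval xa p * xa i := by rw [map_mul, aeval_X]
      have a2 : aeval x (p * X i) = aeval x p * x i := by rw [map_mul, aeval_X]
      rw [a1, a2, Derivation.leibniz, Derivation.leibniz,
        smul_eq_mul, smul_eq_mul, smul_eq_mul, smul_eq_mul, map_add, map_mul Φ, map_mul Φ, hp, hΦa]
      have e1 : Φ (xa i) = x i := hΦl i
      have e2 : Φ (dn G j r1 r2 (xa i)) = θ (x i) := by
        show Φ (dn G j r1 r2 (X (Sum.inl i))) = _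
        rw [dl, hΦy]
      rw [e1, e2]
  have d1 : Φ (dn G j r1 r2 (yn G j r1 r2 (j + 1))) =
      lam * θ (aeval x r1) + g * θ (aeval x (pderiv (j + 2) G)) := by
    rw [y1, map_add, Derivation.leibniz, Derivation.leibniz, dr, dr, smul_zero, smul_zero,
      add_zero, add_zero, smul_eq_mul, smul_eq_mul, map_add, map_mul, map_mul, hΦd, hΦd, hΦ0, hΦ1]
  have d2 : Φ (dn G j r1 r2 (yn G j r1 r2 (j + 2))) =
      lam * θ (aeval x r2) - g * θ (aeval x (pderiv (j + 1) G)) := by
    rw [y2, map_sub, Derivation.leibniz, Derivation.leibniz, dr, dr, smul_zero, smul_zero,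
      add_zero, add_zero, smul_eq_mul, smul_eq_mul, map_sub, map_mul, map_mul, hΦd, hΦd, hΦ0, hΦ1]
  have hGx : (d : K) * aeval x h * aeval x G =
      aeval x (pderiv (j + 1) G) * aeval x r1 + aeval x (pderiv (j + 2) G) * aeval x r2 := by
    have e := congrArg (aeval x) hG
    rw [map_mul, map_mul, map_add, map_mul, map_mul, algHom_C, map_natCast] at e
    exact e
  have hw : Φ (wn G d j h r1 r2) = dt x (fun i => θ (x i)) (fun i => θ (θ (x i))) := by
    rw [nev_dt x _ _ j hθj (by show θ (θ (x j)) = 0; rw [hθj, map_zero])]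
    unfold wn
    rw [map_mul, map_add, map_mul, map_mul, map_mul, map_sub, map_mul, map_mul, hΦy, hΦy, d1, d2,
      hΦ2, hΦa, map_natCast]
    have e1 : Φ (xa j) = x j := hΦl j
    have e2 : Φ (gA G) = aeval x G := hΦa G
    rw [e1, e2]
    have e3 : θ (θ (x (j + 1))) = θ lam * aeval x r1 + lam * θ (aeval x r1) +
        (θ g * aeval x (pderiv (j + 2) G) + g * θ (aeval x (pderiv (j + 2) G))) := by
      rw [h1, map_add, Derivation.leibniz, Derivation.leibniz]
      simp only [smul_eq_mul]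
      ring
    have e4 : θ (θ (x (j + 2))) = θ lam * aeval x r2 + lam * θ (aeval x r2) -
        (θ g * aeval x (pderiv (j + 1) G) + g * θ (aeval x (pderiv (j + 1) G))) := by
      rw [h2, map_sub, Derivation.leibniz, Derivation.leibniz]
      simp only [smul_eq_mul]
      ring
    rw [e3, e4, h1, h2]
    linear_combination (x j * (g * θ lam - lam * θ g)) * hGx
  rw [← hΦ]
  unfold evc ev psn
  have h5 : Φ ((Polynomial.eval₂RingHom
      ((aeval (Sum.elim xa (yn G j r1 r2)) : A2 k →ₐ[k] A2 k) : A2 k →+* A2 k)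
      (wn G d j h r1 r2)) N) = Polynomial.eval₂ ((Φ : A2 k →+* K).comp
        ((aeval (Sum.elim xa (yn G j r1 r2)) : A2 k →ₐ[k] A2 k) : A2 k →+* A2 k))
        (Φ (wn G d j h r1 r2)) N := by
    rw [Polynomial.coe_eval₂RingHom]
    exact Polynomial.hom_eval₂ N _ (Φ : A2 k →+* K) _
  rw [h5, hw]
  have h6 : (Φ : A2 k →+* K).comp
      ((aeval (Sum.elim xa (yn G j r1 r2)) : A2 k →ₐ[k] A2 k) : A2 k →+* A2 k) =
      ((aeval (Sum.elim x fun i => θ (x i)) : A2 k →ₐ[k] K) : A2 k →+* K) := by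
    have h7 : Φ.comp (aeval (Sum.elim xa (yn G j r1 r2))) =
        aeval (Sum.elim x fun i => θ (x i)) := by
      refine MvPolynomial.algHom_ext fun v => ?_
      rw [AlgHom.comp_apply, aeval_X, aeval_X]
      rcases v with i | i
      · exact hΦl i
      · exact hΦy i
    rw [← h7]
    rfl
  rw [h6]
  rfl

end Pool.Agent.H1.ND
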