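import Pool.Agent.H84.ND.Targets2
import Pool.Agent.H16.SM.SCT
import Pool.Agent.H59.SM.SCC
import Pool.Agent.H84.SM.SCLR
import Pool.Agent.H17.SM.LBL

/-!
# MP_70ba79_ag: row SCN of `ndc_modules`: the fundamental inequality for curves with nodes
-/

set_option autoImplicit false

namespace Pool.Agent.H1.ND

open MvPolynomial SC Pool.Agent.H27.LV Pool.Agent.H84.SM Pool.Agent.H84.ND

/-- if `G` is a unit at a place then so is one of its derivatives -/
theorem scn_off {k K : Type} [Field k] [CharZero k] [Field K] [Algebra k K]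
    {G : MvPolynomial (Fin 3) k} {d : ℕ} (hd : 1 ≤ d) (hG : G.IsHomogeneous d) (v : DV k K)
    (x : Fin 3 → K) (hx : ∀ i, 0 ≤ v.ord (x i)) (h0 : aeval x G ≠ 0)
    (h1 : v.ord (aeval x G) = 0) : ∃ l, gr G x l ≠ 0 ∧ v.ord (gr G x l) = 0 := by
  by_contra hcon
  push Not at hcon
  have h2 : ∀ P : MvPolynomial (Fin 3) k, ge v 0 (aeval x P) := by
    intro P
    induction P using MvPolynomial.induction_on with
    | C a => rw [algHom_C]; exact ge_const v a
    | add p q hp hq => rw [map_add]; exact hp.add hq
    | mul_X p i hp =>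
      rw [map_mul, aeval_X]
      have := hp.mul (Or.inr (hx i) : ge v 0 (x i))
      rwa [add_zero] at this
  have h3 : ∀ l, ge v 1 (gr G x l) := by
    intro l
    rcases h2 (pderiv l G) with h | h
    · exact Or.inl h
    · by_cases h4 : gr G x l = 0
      · exact Or.inl h4
      · right
        have h5 := hcon l h4
        have h6 : 0 ≤ v.ord (gr G x l) := h
        omega
  have h4 : ge v 1 ((d : K) * aeval x G) := by
    rw [← Pool.Agent.H17.SM.euler hG x]
    refine ge_sum v _ _ _ fun i _ => ?_
    have := (h3 i).mul (Or.inr (hx i) : ge v 0 (x i))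
    rwa [add_zero] at this
  have h5 : (d : K) = algebraMap k K (d : k) := (map_natCast _ d).symm
  have h6 : (d : K) ≠ 0 := by
    rw [h5, Ne, map_eq_zero, Nat.cast_eq_zero]
    omega
  rcases h4 with h4 | h4
  · exact mul_ne_zero h6 h0 h4
  · rw [v.ord_mul' h6 h0, h1, h5, v.ord_base] at h4
    omega

theorem pf_SCN (hINN : T_INN) (hNIN : T_NIN) : T_SCN := by
  classical
  have hSCC : T_SCC := Pool.Agent.H59.SM.pf_SCC Pool.Agent.H84.SM.pf_SCL
  intro k _ _ _ G d hd hG hsq hnod K _ _ _ htr D hD x S hC n t M N hsec hne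
  obtain ⟨hInv, ⟨e, he, hB⟩, hdiv⟩ := hsec
  have hsec : IsSec G d n (-(t : ℤ)) M N := ⟨hInv, ⟨e, he, hB⟩, hdiv⟩
  obtain ⟨j0, hj0⟩ := hC.one
  have hG0 := hC.ne
  set f : K := evc D x N / aeval x G ^ M with hf
  have hf0 : f ≠ 0 := div_ne_zero hne (pow_ne_zero _ hG0)
  have hA0 : aeval x G ^ M ≠ 0 := pow_ne_zero _ hG0
  -- the local estimate
  have hloc : ∀ v : DV k K, (t : ℤ) * poleOrder v x + n * ordD v D -
      n * (if v ∈ S then 1 else 0) ≤ v.ord f := by
    intro v
    have hpl : ∀ i, -(poleOrder v x : ℤ) ≤ v.ord (x i) := by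
      intro i
      have h1 : (-(v.ord (x i))).toNat ≤ poleOrder v x :=
        Finset.le_sup (f := fun i => (-(v.ord (x i))).toNat) (Finset.mem_univ i)
      omega
    obtain ⟨j, hj, hjp⟩ : ∃ j, x j ≠ 0 ∧ v.ord (x j) = -(poleOrder v x : ℤ) := by
      by_cases hp : poleOrder v x = 0
      · refine ⟨j0, by rw [hj0]; exact one_ne_zero, ?_⟩
        rw [hj0, v.ord_one, hp]
        simp
      · obtain ⟨i, -, hi⟩ := Finset.exists_mem_eq_sup (Finset.univ : Finset (Fin 3))
          Finset.univ_nonempty (fun i => (-(v.ord (x i))).toNat)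
        have hi' : poleOrder v x = (-(v.ord (x i))).toNat := hi
        refine ⟨i, ?_, by omega⟩
        intro h0
        rw [h0, v.ord_zero] at hi'
        exact hp (by rw [hi']; rfl)
    set ε : ℤ := if v ∈ S then 1 else 0 with hε
    have hε0 : 0 ≤ ε := by rw [hε]; split_ifs <;> norm_num
    obtain ⟨-, ⟨hd1, hd2⟩, -⟩ := dor k K htr D hD v
    set μ : K := v.unif ^ (ε - ordD v D) with hμ
    have hμ0 : μ ≠ 0 := v.unif_zpow_ne_zero _
    have hμo : v.ord μ = ε - ordD v D := v.ord_unif_zpow _
    have hμg : ge v (ε - ordD v D) μ := Or.inr hμo.ge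
    have hθ : ∀ z : K, (μ • D) z = μ * D z := fun z => rfl
    have hθ1 : ∀ z : K, 0 ≤ v.ord z → ge v 0 ((μ • D) z) := by
      intro z hz
      rw [hθ]
      exact (hμg.mul (hd1 z hz)).mono (by omega)
    set c : K := (x j)⁻¹ with hc
    have hc0 : c ≠ 0 := inv_ne_zero hj
    have hco : v.ord c = poleOrder v x := by
      have h1 := v.ord_mul' hj hc0
      rw [hc, mul_inv_cancel₀ hj, v.ord_one, hjp] at h1
      rw [hc]
      omega
    have hxt : ∀ i, 0 ≤ v.ord (c * x i) := by
      intro i
      by_cases h0 : x i = 0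
      · rw [h0, mul_zero, v.ord_zero]
      · rw [v.ord_mul' hc0 h0, hco]
        have := hpl i
        omega
    have hxj : c * x j = 1 := by rw [hc]; exact inv_mul_cancel₀ hj
    have hGt : aeval (fun i => c * x i) G = c ^ d * aeval x G := Pool.Agent.H16.SM.aeval_hom hG x c
    have hGt0 : aeval (fun i => c * x i) G ≠ 0 := by
      rw [hGt]; exact mul_ne_zero (pow_ne_zero _ hc0) hG0
    have hlog : ge v 0 ((μ • D) (aeval (fun i => c * x i) G) / aeval (fun i => c * x i) G) := by
      by_cases hv : v ∈ S
      · have h1 := hd2 _ hGt0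
        have h2 := hμg.mul h1
        have h3 : ε = 1 := by rw [hε, if_pos hv]
        have h4 : ge v (-(v.ord (aeval (fun i => c * x i) G)))
            (aeval (fun i => c * x i) G)⁻¹ := by
          right
          have h5 := v.ord_mul' hGt0 (inv_ne_zero hGt0)
          rw [mul_inv_cancel₀ hGt0, v.ord_one] at h5
          omega
        rw [div_eq_mul_inv, hθ]
        exact (h2.mul h4).mono (by omega)
      · have h1 : v.ord (aeval (fun i => c * x i) G) = 0 := by
          rw [hGt, v.ord_mul' (pow_ne_zero _ hc0) hG0, v.ord_pow, hco, hC.off v hv]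
          ring
        have h2 := hθ1 _ h1.ge
        have h4 : ge v 0 (aeval (fun i => c * x i) G)⁻¹ := by
          right
          have h5 := v.ord_mul' hGt0 (inv_ne_zero hGt0)
          rw [mul_inv_cancel₀ hGt0, v.ord_one] at h5
          omega
        rw [div_eq_mul_inv]
        exact (h2.mul h4).mono (by omega)
    have hint : ge v 0 (evc (μ • D) (fun i => c * x i) N / aeval (fun i => c * x i) G ^ M) := by
      by_cases hl : ∃ l, gr G (fun i => c * x i) l ≠ 0 ∧
          v.ord (gr G (fun i => c * x i) l) = 0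
      · exact hINN k K G d hd hG v (μ • D) (fun i => c * x i) hθ1 hxt hl hGt0 hlog
          n M (-(t : ℤ)) N hsec
      · have hvS : v ∈ S := by
          by_contra hv
          exact hl (scn_off hd hG v (fun i => c * x i) hxt hGt0 (by
            rw [hGt, v.ord_mul' (pow_ne_zero _ hc0) hG0, v.ord_pow, hco, hC.off v hv]
            ring))
        choose s hs using fun i => (rat k K htr v).2 (c * x i) (hxt i)
        have hsj : s j = 1 := by
          have h1 := hs j
          rw [hxj, ← map_one (algebraMap k K), ← map_sub] at h1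
          have h2 := const_eq_zero v one_pos h1
          exact (sub_eq_zero.1 h2).symm
        have hsing : Sing G s := by
          refine ⟨fun h0 => ?_, fun l => ?_⟩
          · rw [h0, Pi.zero_apply] at hsj
            exact zero_ne_one hsj
          · by_contra h0
            apply hl
            refine ⟨l, ?_⟩
            have h1 := Pool.Agent.H16.SM.ge_aeval v (fun i => c * x i) s hxt hs (pderiv l G)
            have e : gr G (fun i => c * x i) l = algebraMap k K (eval s (pderiv l G)) +
                (aeval (fun i => c * x i) (pderiv l G) -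
                  algebraMap k K (eval s (pderiv l G))) := by
              unfold gr; ring
            have h2 := v.ord_add_eq_left (x := algebraMap k K (eval s (pderiv l G)))
              (y := aeval (fun i => c * x i) (pderiv l G) - algebraMap k K (eval s (pderiv l G)))
              (by rw [Ne, map_eq_zero]; exact h0) (fun h => by
                rw [v.ord_base]
                have := h1.resolve_left h
                omega)
            rw [← e, v.ord_base] at h2
            exact h2
        refine hNIN k K G d hd hG hsq s j (hnod s hsing) hsj v (μ • D) (fun i => c * x i)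
          (fun z hz => ?_) hxj hs hGt0 n M (-(t : ℤ)) N hsec
        have h3 : ε = 1 := by rw [hε, if_pos hvS]
        rw [hθ]
        exact (hμg.mul (hd2 z hz)).mono (by omega)
    rw [hSCC k K D x c μ e n N hInv hB, hGt] at hint
    have hE : c ^ (e + n) * μ ^ n * evc D x N / (c ^ d * aeval x G) ^ M =
        c ^ (e + n) * μ ^ n / (c ^ d) ^ M * f := by
      rw [hf, mul_pow]
      have := pow_ne_zero M (pow_ne_zero d hc0)
      field_simp
    rw [hE] at hint
    have hcn : c ^ (e + n) * μ ^ n ≠ 0 := mul_ne_zero (pow_ne_zero _ hc0) (pow_ne_zero _ hμ0)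
    have hcd : (c ^ d) ^ M ≠ 0 := pow_ne_zero _ (pow_ne_zero _ hc0)
    have hint' := hint.resolve_left (mul_ne_zero (div_ne_zero hcn hcd) hf0)
    rw [v.ord_mul' (div_ne_zero hcn hcd) hf0, v.ord_div hcn hcd,
      v.ord_mul' (pow_ne_zero _ hc0) (pow_ne_zero _ hμ0), v.ord_pow, v.ord_pow, v.ord_pow,
      v.ord_pow, hco, hμo] at hint'
    have he' : (e : ℤ) + n - M * d = -t := by rw [he]; ring
    have hfin : ((e + n : ℕ) : ℤ) * (poleOrder v x : ℤ) - M * (d * (poleOrder v x : ℤ)) =
        -(t : ℤ) * poleOrder v x := by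
      rw [← he']
      push_cast
      ring
    linarith
  -- summation over all places
  obtain ⟨hfs, hfsum⟩ := pfm k K htr f
  have hps := pfi k K htr (Fin 3) x
  have hds := Pool.Agent.H58.LV.dfi dor pfm rat k K htr D hD
  let T : Finset (DV k K) := hfs.toFinset ∪ hps.toFinset ∪ hds.toFinset ∪ S
  have e1 : ∑ᶠ v : DV k K, v.ord f = ∑ v ∈ T, v.ord f := by
    refine finsum_eq_sum_of_support_subset _ fun v hv => ?_
    have : v ∈ hfs.toFinset := hfs.mem_toFinset.2 hv
    simp only [T, Finset.coe_union, Set.mem_union, Finset.mem_coe]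
    exact Or.inl (Or.inl (Or.inl this))
  have e2 : (deg k x : ℤ) = ∑ v ∈ T, (poleOrder v x : ℤ) := by
    have h1 : deg k x = ∑ v ∈ T, poleOrder v x := by
      unfold deg
      refine finsum_eq_sum_of_support_subset _ fun v hv => ?_
      have : v ∈ hps.toFinset := hps.mem_toFinset.2 hv
      simp only [T, Finset.coe_union, Set.mem_union, Finset.mem_coe]
      exact Or.inl (Or.inl (Or.inr this))
    rw [h1]
    push_cast
    rfl
  have e3 : canDeg D = - ∑ v ∈ T, ordD v D := by
    unfold canDeg
    congr 1
    refine finsum_eq_sum_of_support_subset _ fun v hv => ?_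
    have : v ∈ hds.toFinset := hds.mem_toFinset.2 hv
    simp only [T, Finset.coe_union, Set.mem_union, Finset.mem_coe]
    exact Or.inl (Or.inr this)
  have e4 : (S.card : ℤ) = ∑ v ∈ T, (if v ∈ S then (1 : ℤ) else 0) := by
    rw [Finset.sum_ite_mem, Finset.inter_eq_right.2 Finset.subset_union_right]
    simp
  have e5 := Finset.sum_le_sum fun v (_ : v ∈ T) => hloc v
  rw [← e1, hfsum, Finset.sum_sub_distrib, Finset.sum_add_distrib, ← Finset.mul_sum,
    ← Finset.mul_sum, ← Finset.mul_sum, ← e2, ← e4] at e5
  rw [e3]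
  have e6 : (n : ℤ) * (-∑ v ∈ T, ordD v D + S.card) =
      n * S.card - n * ∑ v ∈ T, ordD v D := by ring
  rw [e6]
  linarith

end Pool.Agent.H1.ND
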